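import Pool.Agent.MP_1e9c11_gt.H81.Upper

/-! Heil's body does not minimise the volume among convex bodies of width one in space. -/

open MeasureTheory

namespace Pool.Agent.Results.MP_1e9c11_gt.HeilNotMinimal

open Pool.Agent.MP_1e9c11_gt.H81

theorem result : ∃ K : Set (EuclideanSpace ℝ (Fin 3)), IsBody K ∧ HasWidth K 1 ∧
    volume K ≤ ENNReal.ofReal (2984541 / 10000000) ∧
    ∀ θ₀ : ℝ, 9 / 50 ≤ θ₀ →
      ENNReal.ofReal (2984556 / 10000000) ≤ volume (heil θ₀) ∧ volume K < volume (heil θ₀) :=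
  ⟨KE, KE_body, KE_width, KE_vol, fun _ h => ⟨heil_ge h, KE_vol.trans_lt
    (lt_of_lt_of_le ((ENNReal.ofReal_lt_ofReal_iff (by norm_num)).2 (by norm_num)) (heil_ge h))⟩⟩

end Pool.Agent.Results.MP_1e9c11_gt.HeilNotMinimal
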