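import Pool.Agent.MP_1e9c11_gt.H99.Square
import Pool.Agent.MP_1e9c11_gt.H98.Transfer

/-! A lower bound for the volume of a convex body of width one in space. -/

open MeasureTheory

namespace Pool.Agent.Results.MP_1e9c11_gt.SquareBound

open Pool.Agent.MP_1e9c11_gt.H81

theorem result : ∀ K : Set (EuclideanSpace ℝ (Fin 3)), IsBody K → HasWidth K 1 →
    ENNReal.ofReal (Real.sqrt 6 / 9) ≤ volume K := by
  intro K hK hw
  obtain ⟨K', h1, h2, h3, h4⟩ := Pool.Agent.MP_1e9c11_gt.H98.transfer hK hw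
  rw [← h4]
  exact Pool.Agent.MP_1e9c11_gt.H99.main h1 h2 h3

end Pool.Agent.Results.MP_1e9c11_gt.SquareBound
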