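import Pool.Agent.MP_1e9c11_gt.H69.Value
import Pool.Agent.MP_1e9c11_gt.H69.Exist

/-! The least volume of a convex body of width one with full tetrahedral symmetry. -/

open MeasureTheory

namespace Pool.Agent.Results.MP_1e9c11_gt.TetraSym

open Pool.Agent.MP_1e9c11_gt.H81 Pool.Agent.MP_1e9c11_gt.H69

theorem result : (∃ P : Profile, P.Solves) ∧ ∀ P : Profile, P.Solves →
    IsBody P.body ∧ TSym P.body ∧ HasWidth P.body 1 ∧
    ENNReal.ofReal (2984 / 10000) ≤ volume P.body ∧
    volume P.body ≤ ENNReal.ofReal (2984541 / 10000000) ∧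
    ∀ K : Set (EuclideanSpace ℝ (Fin 3)), IsBody K → TSym K → HasWidth K 1 →
      volume P.body ≤ volume K ∧ (volume K = volume P.body → K = P.body ∨ K = -P.body) :=
  ⟨exists_solves, fun P hP => ⟨hP.isBody, body_tsym P, hP.hasWidth, hP.body_ge,
    hP.body_le.trans (ENNReal.ofReal_le_ofReal hP.J_le), fun _ h1 h2 h3 => hP.minimal h1 h2 h3⟩⟩

end Pool.Agent.Results.MP_1e9c11_gt.TetraSym
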